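import Mathlib
import Pool.Agent.U161.KK.Main3

set_option linter.unusedSectionVars false

/-!
# Coupling constants of Kadison–Kastler close II₁ factors agree (MP_41729c_an, Q1)

There is a universal `δ > 0` such that II₁ factors `M, N ⊆ B(H)` on an arbitrary Hilbert space with
`d(M, N) < δ` have the same Murray–von Neumann dimension, finite or infinite.

Ideas: (1) derivations of C*-algebras into `B(H)` are inner with norm control
(`Pool.Agent.H759R2.Kad`), so commutants of close von Neumann algebras are close with a universal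
constant; (2) a maximal abelian subalgebra `A` of `M` is moved into `N` by a unitary near `1`
(averaging of almost representations of the abelian group of symmetries of `A`), and then is
maximal abelian in `N`; (3) the traces of `M` and `N` agree on `A`, by comparison of projections;
(4) for an orthogonal family of cyclic modules `L²(M) pᵢ` in `H` with `pᵢ ∈ A`, the right action of
`A` lies in `M'`, hence can be moved into `N'` by a unitary near `1` commuting with `A`; then the
vector functionals of the family are `A`-central on `N` and are computed through `A`.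
-/

open scoped ComplexOrder InnerProductSpace ComplexConjugate Topology ENNReal

noncomputable section

namespace Pool.Agent.Results.MP_41729c_an.CouplingConstantsAgree

universe u

variable {H : Type u} [NormedAddCommGroup H] [InnerProductSpace ℂ H] [CompleteSpace H]

/-- The closed unit ball of a von Neumann algebra (operator norm). -/
def unitBall (M : VonNeumannAlgebra H) : Set (H →L[ℂ] H) := {x | x ∈ M ∧ ‖x‖ ≤ 1}

/-- The Kadison–Kastler distance: the Hausdorff distance of the closed unit balls. -/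
def kkDist (M N : VonNeumannAlgebra H) : ℝ := Metric.hausdorffDist (unitBall M) (unitBall N)

/-- The centre of `M` is trivial. -/
def IsFactor (M : VonNeumannAlgebra H) : Prop :=
  ∀ z ∈ M, z ∈ M.commutant → ∃ c : ℂ, z = c • 1

/-- `M` is infinite dimensional: it contains arbitrarily long linearly independent families. -/
def IsInfDim (M : VonNeumannAlgebra H) : Prop :=
  ∀ n : ℕ, ∃ x : Fin n → (H →L[ℂ] H), (∀ i, x i ∈ M) ∧ LinearIndependent ℂ x

/-- `τ` is a normal state on `M`, i.e. a sum of countably many vector functionals on `M`. -/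
def IsNormalState (M : VonNeumannAlgebra H) (τ : (H →L[ℂ] H) → ℂ) : Prop :=
  τ 1 = 1 ∧ ∃ ξ : ℕ → H, (Summable fun n => ‖ξ n‖ ^ 2) ∧
    ∀ x ∈ M, τ x = ∑' n, ⟪ξ n, x (ξ n)⟫_ℂ

/-- `τ` is tracial on `M`. -/
def IsTracial (M : VonNeumannAlgebra H) (τ : (H →L[ℂ] H) → ℂ) : Prop :=
  ∀ x ∈ M, ∀ y ∈ M, τ (x * y) = τ (y * x)

/-- `τ` is faithful on `M`. -/
def IsFaithful (M : VonNeumannAlgebra H) (τ : (H →L[ℂ] H) → ℂ) : Prop :=
  ∀ x ∈ M, τ (star x * x) = 0 → x = 0

/-- `M` is a II₁ factor and `τ` is its faithful normal tracial state (only the values of `τ` on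
`M` matter): the centre of `M` is trivial, `M` is infinite dimensional, and `τ` is a faithful
normal tracial state of `M`. -/
structure IsII1Factor (M : VonNeumannAlgebra H) (τ : (H →L[ℂ] H) → ℂ) : Prop where
  factor : IsFactor M
  infinite : IsInfDim M
  normal : IsNormalState M τ
  tracial : IsTracial M τ
  faithful : IsFaithful M τ

/-- Orthogonal projection. -/
def IsProj (p : H →L[ℂ] H) : Prop := star p = p ∧ p * p = p

/-- The vectors `ζ i` and projections `p i ∈ M` satisfy `⟪ζ i, x (ζ j)⟫ = δ_ij τ (x (p i))` for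
`x ∈ M`.  Equivalently: the maps `x (p i)^ ↦ x (ζ i)` define an isometric `M`-linear embedding of
`⨁ i, L²(M, τ) (p i)` into `H`, with image `⨁ i, closure (M (ζ i))`. -/
structure IsFamily (M : VonNeumannAlgebra H) (τ : (H →L[ℂ] H) → ℂ) {n : ℕ}
    (ζ : Fin n → H) (p : Fin n → (H →L[ℂ] H)) : Prop where
  mem : ∀ i, p i ∈ M
  proj : ∀ i, IsProj (p i)
  inner : ∀ i j, ∀ x ∈ M, ⟪ζ i, x (ζ j)⟫_ℂ = if i = j then τ (x * p i) else 0

/-- The Murray–von Neumann dimension `dim_M(H) ∈ [0, ∞]` (coupling constant): the supremum of the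
dimensions `∑ i, τ (p i)` of the modules `⨁ i, L²(M, τ) (p i)`, over finite families, which embed
in `H`.  (Every `H` is an orthogonal sum of submodules `L²(M, τ) (p i)`, and `dim_M(H)` is
`∑ i, τ (p i)`; submodules have smaller dimension, so the supremum is `dim_M(H)`.) -/
def vnDim (M : VonNeumannAlgebra H) (τ : (H →L[ℂ] H) → ℂ) : ℝ≥0∞ :=
  ⨆ (n : ℕ) (ζ : Fin n → H) (p : Fin n → (H →L[ℂ] H)) (_ : IsFamily M τ ζ p),
    ∑ i, ENNReal.ofReal (τ (p i)).re

theorem isNT_of {M : VonNeumannAlgebra H} {τ : (H →L[ℂ] H) → ℂ}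
    (h : IsII1Factor M τ) : ∃ ξ : ℕ → H, U161.KK.IsNT M ξ ∧ ∀ a ∈ M, τ a = U161.KK.tr ξ a := by
  obtain ⟨h1', ξ, hs, hξ⟩ := h.normal
  refine ⟨ξ, ⟨?_, fun x hx y hy => ?_, fun x hx h0 => ?_⟩, hξ⟩
  · have h1 := hξ 1 (OneMemClass.one_mem M)
    rw [h1'] at h1
    have h2 := U161.KK.tr_star_mul hs (1 : H →L[ℂ] H)
    rw [star_one, one_mul] at h2
    have h3 : U161.KK.tr ξ (1 : H →L[ℂ] H) = 1 := h1.symm
    rw [h3] at h2
    have h4 : ∑' n, ‖ξ n‖ ^ 2 = 1 := by
      have : ((∑' n, ‖(1 : H →L[ℂ] H) (ξ n)‖ ^ 2 : ℝ) : ℂ) = ((1 : ℝ) : ℂ) := by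
        rw [← h2]; simp
      exact Complex.ofReal_injective this
    rw [← h4]
    exact hs.hasSum
  · have h1 := h.tracial x hx y hy
    rw [hξ _ (mul_mem hx hy), hξ _ (mul_mem hy hx)] at h1
    exact h1
  · refine h.faithful x hx ?_
    rw [hξ _ (mul_mem (star_mem hx) hx)]
    exact h0

theorem isII1_of {M : VonNeumannAlgebra H} {τ : (H →L[ℂ] H) → ℂ}
    (h : IsII1Factor M τ) : ∃ τ' : M.toStarSubalgebra →ₗ[ℂ] ℂ, H759R2.Kad.IsII1 M τ' := by
  obtain ⟨ξ, hξ, hξτ⟩ := isNT_of h
  have hs := hξ.summable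
  refine ⟨{ toFun := fun x => U161.KK.tr ξ (x : H →L[ℂ] H)
            map_add' := fun x y => U161.KK.tr_add hs x y
            map_smul' := fun c x => U161.KK.tr_smul hs c x }, ?_, ?_, ⟨?_, ?_, ?_⟩, ?_⟩
  · intro z hz hc
    refine h.factor z hz ?_
    rw [VonNeumannAlgebra.mem_commutant_iff]
    intro g hg
    exact (hc g hg).symm
  · intro hfin
    obtain ⟨x, hx, hli⟩ := h.infinite (Module.finrank ℂ M.toStarSubalgebra + 1)
    have hli' : LinearIndependent ℂ (fun i => (⟨x i, hx i⟩ : M.toStarSubalgebra)) := by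
      refine LinearIndependent.of_comp
        (Subalgebra.toSubmodule M.toStarSubalgebra.toSubalgebra).subtype ?_
      exact hli
    have := hli'.fintype_card_le_finrank
    rw [Fintype.card_fin] at this
    omega
  · exact hξ.tr_one
  · intro a
    change 0 ≤ U161.KK.tr ξ (star (a : H →L[ℂ] H) * (a : H →L[ℂ] H))
    rw [Complex.nonneg_iff]
    exact ⟨U161.KK.tr_star_mul_nonneg hs _, (U161.KK.tr_star_mul_im hs _).symm⟩
  · intro a b
    exact hξ.comm a a.2 b b.2
  · intro a ha
    exact Subtype.ext (hξ.faithful a a.2 ha)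

theorem near_of_kkDist {M N : VonNeumannAlgebra H} {δ : ℝ} (h : kkDist M N < δ) :
    U161.KK.Near M N δ := by
  have hne : ∀ K : VonNeumannAlgebra H, (unitBall K).Nonempty := fun K =>
    ⟨0, zero_mem K, by simp⟩
  have hb : ∀ K : VonNeumannAlgebra H, Bornology.IsBounded (unitBall K) := fun K =>
    Metric.isBounded_closedBall.subset (s := unitBall K) (t := Metric.closedBall 0 1)
      fun x hx => mem_closedBall_zero_iff.2 hx.2
  have hfin : Metric.hausdorffEDist (unitBall M) (unitBall N) ≠ ⊤ :=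
    Metric.hausdorffEDist_ne_top_of_nonempty_of_bounded (hne M) (hne N) (hb M) (hb N)
  intro x hx
  by_cases h0 : x = 0
  · subst h0
    exact ⟨0, zero_mem N, by simp⟩
  · have hx0 : (0 : ℝ) < ‖x‖ := norm_pos_iff.2 h0
    have hxb : ((‖x‖⁻¹ : ℝ) : ℂ) • x ∈ unitBall M := by
      refine ⟨SMulMemClass.smul_mem (S := StarSubalgebra ℂ (H →L[ℂ] H))
        (s := M.toStarSubalgebra) _ hx, ?_⟩
      rw [norm_smul, Complex.norm_real, norm_inv, norm_norm, inv_mul_cancel₀ hx0.ne']
    obtain ⟨y, hy, hxy⟩ := Metric.exists_dist_lt_of_hausdorffDist_lt hxb h hfin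
    refine ⟨((‖x‖ : ℝ) : ℂ) • y, SMulMemClass.smul_mem (S := StarSubalgebra ℂ (H →L[ℂ] H))
        (s := N.toStarSubalgebra) _ hy.1, ?_⟩
    have e : x - ((‖x‖ : ℝ) : ℂ) • y = ((‖x‖ : ℝ) : ℂ) • (((‖x‖⁻¹ : ℝ) : ℂ) • x - y) := by
      rw [smul_sub, smul_smul]
      have : ((‖x‖ : ℝ) : ℂ) * ((‖x‖⁻¹ : ℝ) : ℂ) = 1 := by
        rw [← Complex.ofReal_mul, mul_inv_cancel₀ hx0.ne', Complex.ofReal_one]
      rw [this, one_smul]
    rw [e, norm_smul, Complex.norm_real, norm_norm, mul_comm]
    rw [dist_eq_norm] at hxy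
    exact mul_le_mul_of_nonneg_right hxy.le hx0.le

theorem kkDist_comm (M N : VonNeumannAlgebra H) : kkDist M N = kkDist N M :=
  Metric.hausdorffDist_comm

theorem vnDim_le {M N : VonNeumannAlgebra H} {τM τN : (H →L[ℂ] H) → ℂ}
    (hM : IsII1Factor M τM) (hN : IsII1Factor N τN)
    (h : kkDist M N < U161.KK.δ0) : vnDim M τM ≤ vnDim N τN := by
  obtain ⟨ξ, hξ, hξτ⟩ := isNT_of hM
  obtain ⟨ξ', hξ', hξτ'⟩ := isNT_of hN
  obtain ⟨τ', hII⟩ := isII1_of hM
  refine iSup_le fun n => iSup_le fun ζ => iSup_le fun p => iSup_le fun hfam => ?_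
  have hfam' : U161.KK.Fam M ξ ζ p := by
    intro i j x hx
    have h1 := hfam.inner i j x hx
    rw [hξτ _ (mul_mem hx (hfam.mem i))] at h1
    exact h1
  obtain ⟨ζ', p', k1, k2, k3, k4⟩ := U161.KK.fam_transport' τ' hII hξ hξ'
    U161.KK.δ0_pos.le le_rfl (near_of_kkDist h) (near_of_kkDist (by rwa [kkDist_comm]))
    hfam.mem hfam.proj hfam'
  have hN' : IsFamily N τN ζ' p' := by
    refine ⟨k1, k2, fun i j x hx => ?_⟩
    have h1 := k3 i j x hx
    rw [hξτ' _ (mul_mem hx (k1 i))]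
    exact h1
  have hsum : ∑ i, ENNReal.ofReal (τM (p i)).re = ∑ i, ENNReal.ofReal (τN (p' i)).re := by
    refine Finset.sum_congr rfl fun i _ => ?_
    rw [hξτ _ (hfam.mem i), hξτ' _ (k1 i), k4 i]
  rw [hsum]
  exact le_iSup_of_le n (le_iSup_of_le ζ' (le_iSup_of_le _ (le_iSup_of_le hN' le_rfl)))

/-- **Coupling constants of Kadison–Kastler close II₁ factors agree.**  There is a universal
`δ > 0` such that for every Hilbert space `H` and all II₁ factors `M, N ⊆ B(H)` with
`d(M, N) < δ` one has `dim_M(H) = dim_N(H)`. -/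
theorem result : ∃ δ : ℝ, 0 < δ ∧
    ∀ (H : Type u) [NormedAddCommGroup H] [InnerProductSpace ℂ H] [CompleteSpace H]
      (M N : VonNeumannAlgebra H) (τM τN : (H →L[ℂ] H) → ℂ),
      IsII1Factor M τM → IsII1Factor N τN → kkDist M N < δ → vnDim M τM = vnDim N τN := by
  refine ⟨U161.KK.δ0, U161.KK.δ0_pos, fun H _ _ _ M N τM τN hM hN h => ?_⟩
  exact le_antisymm (vnDim_le hM hN h) (vnDim_le hN hM (by rwa [kkDist_comm]))

end Pool.Agent.Results.MP_41729c_an.CouplingConstantsAgree
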